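import Pool.Agent.MP_d1c425_co.H48.Ind

set_option autoImplicit false

namespace Pool.Agent.Results.MP_d1c425_co.Series

open Pool.Agent.MP_d1c425_co.H48

/-- For `v ≥ 10`, `v ≡ 2`, `k ≡ 3 (mod 4)` and `k ≤ v - 3` there is a large set `LS_2[5](2,k,v)`:
the `k`-subspaces of `F_2^v` split into five pairwise disjoint `2-(v,k,lam)_2` designs. -/
theorem result (v k : ℕ) (hv : 10 ≤ v) (hv4 : v % 4 = 2) (hk4 : k % 4 = 3) (hkv : k + 3 ≤ v) :
    ∃ (lam : ℕ) (D : Fin 5 → Set (Submodule (ZMod 2) (Fin v → ZMod 2))),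
      (∀ i, IsDes v k lam (D i)) ∧ (Pairwise fun i j => Disjoint (D i) (D j)) ∧
        ∀ B : Submodule (ZMod 2) (Fin v → ZMod 2), Module.finrank (ZMod 2) B = k →
          ∃ i, B ∈ D i :=
  series hv hv4 hk4 hkv

end Pool.Agent.Results.MP_d1c425_co.Series
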