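import Pool.Agent.MP_d1c425_co.Main

set_option autoImplicit false

namespace Pool.Agent.Results.MP_d1c425_co.ThreeDisjoint

open Pool.Agent.MP_d1c425_co

/-- There are three pairwise disjoint `2-(6,3,3)_2` subspace designs. -/
theorem result : ∃ D : Fin 3 → Set (Submodule (ZMod 2) V),
    (∀ i, IsDesign 3 (D i)) ∧ Pairwise fun i j => Disjoint (D i) (D j) := three

end Pool.Agent.Results.MP_d1c425_co.ThreeDisjoint
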